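import Pool.Agent.W978.QP.Stm

set_option autoImplicit false

/-! QP-IVB: the analytic part of the sum of the inverses. -/

namespace Pool.Agent.W899.QP

open Finset Pool.Agent.W978.QP
open Pool.Agent.W978.QN (nm bx)

/-- the linear forms -/
noncomputable def yy (Y : Fin 3 → Fin 3 → ℂ) (i : Fin 3) (q : Fin 3 → ℤ) : ℂ :=
  ∑ k, Y i k * (q k : ℂ)

theorem lemA (Y : Fin 3 → Fin 3 → ℂ) (hY : (Matrix.of Y).det ≠ 0) :
    ∃ C1 : ℝ, 0 < C1 ∧ ∀ q : Fin 3 → ℤ, ∃ i, (nm q : ℝ) ≤ C1 * ‖yy Y i q‖ := by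
  set Z := (Matrix.of Y)⁻¹ with hZ
  set B : ℝ := ∑ k, ∑ i, ‖Z k i‖ with hB
  have hB0 : 0 ≤ B := sum_nonneg (fun k _ => sum_nonneg (fun i _ => norm_nonneg _))
  refine ⟨B + 1, by linarith, ?_⟩
  intro q
  obtain ⟨i0, -, hi0⟩ := Finset.exists_max_image (univ : Finset (Fin 3)) (fun i => ‖yy Y i q‖)
    ⟨0, mem_univ 0⟩
  refine ⟨i0, ?_⟩
  have hinv : Z * Matrix.of Y = 1 := Matrix.nonsing_inv_mul _ (isUnit_iff_ne_zero.2 hY)
  have hv : ∀ k, ((q k : ℤ) : ℂ) = ∑ i, Z k i * yy Y i q := by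
    intro k
    have h1 : Z.mulVec ((Matrix.of Y).mulVec (fun k => ((q k : ℤ) : ℂ))) =
        (fun k => ((q k : ℤ) : ℂ)) := by
      rw [Matrix.mulVec_mulVec, hinv, Matrix.one_mulVec]
    have h2 := congrFun h1 k
    rw [← h2]
    rfl
  have hk : ∀ k, |((q k : ℤ) : ℝ)| ≤ (B + 1) * ‖yy Y i0 q‖ := by
    intro k
    have e : |((q k : ℤ) : ℝ)| = ‖((q k : ℤ) : ℂ)‖ := by
      rw [Complex.norm_intCast]
    rw [e, hv k]
    refine (norm_sum_le _ _).trans ?_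
    have h3 : ∑ i, ‖Z k i * yy Y i q‖ ≤ (∑ i, ‖Z k i‖) * ‖yy Y i0 q‖ := by
      rw [sum_mul]
      refine sum_le_sum (fun i _ => ?_)
      rw [norm_mul]
      exact mul_le_mul_of_nonneg_left (hi0 i (mem_univ i)) (norm_nonneg _)
    refine h3.trans (mul_le_mul_of_nonneg_right ?_ (norm_nonneg _))
    have h4 : ∑ i, ‖Z k i‖ ≤ B :=
      Finset.single_le_sum (f := fun k => ∑ i, ‖Z k i‖)
        (fun k _ => sum_nonneg (fun i _ => norm_nonneg _)) (mem_univ k)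
    linarith
  unfold nm
  push_cast
  exact max_le (max_le (hk 0) (hk 1)) (hk 2)

theorem minor (Y : Fin 3 → Fin 3 → ℂ) (hY : (Matrix.of Y).det ≠ 0) (j k : Fin 3) (hjk : j ≠ k) :
    ∃ a b : Fin 3, Y j a * Y k b - Y j b * Y k a ≠ 0 := by
  by_contra hcon
  push Not at hcon
  apply hY
  have h01 := hcon 0 1
  have h02 := hcon 0 2
  have h12 := hcon 1 2
  rw [Matrix.det_fin_three]
  simp only [Matrix.of_apply]
  fin_cases j <;> fin_cases k <;> simp only [Fin.zero_eta, Fin.mk_one, Fin.reduceFinMk,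
    Fin.isValue] at h01 h02 h12 hjk ⊢
  · exact absurd rfl hjk
  · linear_combination Y 2 2 * h01 - Y 2 1 * h02 + Y 2 0 * h12
  · linear_combination -(Y 1 2 * h01 - Y 1 1 * h02 + Y 1 0 * h12)
  · linear_combination -(Y 2 2 * h01 - Y 2 1 * h02 + Y 2 0 * h12)
  · exact absurd rfl hjk
  · linear_combination Y 0 2 * h01 - Y 0 1 * h02 + Y 0 0 * h12
  · linear_combination Y 1 2 * h01 - Y 1 1 * h02 + Y 1 0 * h12
  · linear_combination -(Y 0 2 * h01 - Y 0 1 * h02 + Y 0 0 * h12)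
  · exact absurd rfl hjk

theorem third (a b : Fin 3) (h : a ≠ b) :
    ∃ e : Fin 3, e ≠ a ∧ e ≠ b ∧ ∀ x : Fin 3, x = a ∨ x = b ∨ x = e := by
  revert a b
  decide

theorem sum_three {M : Type*} [AddCommMonoid M] (a b e : Fin 3) (h : a ≠ b) (h1 : e ≠ a)
    (h2 : e ≠ b) (f : Fin 3 → M) : ∑ x, f x = f a + f b + f e := by
  have hu : (univ : Finset (Fin 3)) = {a, b, e} := by
    ext x
    simp only [mem_univ, mem_insert, mem_singleton, true_iff]
    revert a b e x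
    decide
  rw [hu, sum_insert, sum_insert, sum_singleton, add_assoc]
  · simpa using h2.symm
  · simp only [mem_insert, mem_singleton, not_or]
    exact ⟨h, h1.symm⟩

/-- Cramer. -/
theorem cramer (y1 y2 y3 y4 : ℂ) (μ : ℂ) (hμ : μ = y1 * y4 - y2 * y3) (hμ0 : μ ≠ 0)
    (da db : ℤ) (R Mx : ℝ)
    (h1 : ‖y1 * (da : ℂ) + y2 * (db : ℂ)‖ ≤ 2 * R) (h2 : ‖y3 * (da : ℂ) + y4 * (db : ℂ)‖ ≤ 2 * R)
    (hM : Mx = ‖y1‖ + ‖y2‖ + ‖y3‖ + ‖y4‖) :
    |(da : ℝ)| ≤ 2 * Mx * R / ‖μ‖ ∧ |(db : ℝ)| ≤ 2 * Mx * R / ‖μ‖ := by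
  have hR : 0 ≤ R := by
    have := (norm_nonneg _).trans h1
    linarith
  have hn : 0 < ‖μ‖ := norm_pos_iff.2 hμ0
  have e1 : ‖(da : ℂ)‖ = |(da : ℝ)| := Complex.norm_intCast da
  have e2 : ‖(db : ℂ)‖ = |(db : ℝ)| := Complex.norm_intCast db
  have n1 := norm_nonneg y1
  have n2 := norm_nonneg y2
  have n3 := norm_nonneg y3
  have n4 := norm_nonneg y4
  constructor
  · rw [le_div_iff₀ hn, ← e1, ← norm_mul]
    have e : (da : ℂ) * μ = y4 * (y1 * (da : ℂ) + y2 * (db : ℂ)) -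
        y2 * (y3 * (da : ℂ) + y4 * (db : ℂ)) := by
      rw [hμ]
      ring
    rw [e]
    refine (norm_sub_le _ _).trans ?_
    rw [norm_mul, norm_mul, hM]
    have a1 := mul_le_mul_of_nonneg_left h1 n4
    have a2 := mul_le_mul_of_nonneg_left h2 n2
    have a3 : 0 ≤ ‖y1‖ * R := mul_nonneg n1 hR
    have a4 : 0 ≤ ‖y3‖ * R := mul_nonneg n3 hR
    nlinarith
  · rw [le_div_iff₀ hn, ← e2, ← norm_mul]
    have e : (db : ℂ) * μ = y1 * (y3 * (da : ℂ) + y4 * (db : ℂ)) -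
        y3 * (y1 * (da : ℂ) + y2 * (db : ℂ)) := by
      rw [hμ]
      ring
    rw [e]
    refine (norm_sub_le _ _).trans ?_
    rw [norm_mul, norm_mul, hM]
    have a1 := mul_le_mul_of_nonneg_left h2 n1
    have a2 := mul_le_mul_of_nonneg_left h1 n3
    have a3 : 0 ≤ ‖y2‖ * R := mul_nonneg n2 hR
    have a4 : 0 ≤ ‖y4‖ * R := mul_nonneg n4 hR
    nlinarith

theorem abs_le_floor (d : ℤ) (D : ℝ) (h : |(d : ℝ)| ≤ D) :
    d ∈ Finset.Icc (-((⌊D⌋₊ : ℕ) : ℤ)) ((⌊D⌋₊ : ℕ) : ℤ) := by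
  have h1 : d.natAbs ≤ ⌊D⌋₊ := by
    apply Nat.le_floor
    have e : ((d.natAbs : ℕ) : ℝ) = |(d : ℝ)| := by
      rw [Nat.cast_natAbs]
      push_cast
      rfl
    rw [e]
    exact h
  rw [Finset.mem_Icc]
  omega

open Classical in
theorem lemC (Y : Fin 3 → Fin 3 → ℂ) (hY : (Matrix.of Y).det ≠ 0) (j k : Fin 3) (hjk : j ≠ k) :
    ∃ C2 : ℝ, 0 < C2 ∧ ∀ X : ℕ, 1 ≤ X → ∀ R : ℝ, 0 ≤ R →
      (((bx X).filter (fun q => ‖yy Y j q‖ ≤ R ∧ ‖yy Y k q‖ ≤ R)).card : ℝ) ≤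
        C2 * X * (1 + R) ^ 2 := by
  obtain ⟨a, b, hab⟩ := minor Y hY j k hjk
  have hne : a ≠ b := by
    rintro rfl
    exact hab (by ring)
  obtain ⟨e, he1, he2, he3⟩ := third a b hne
  set μ : ℂ := Y j a * Y k b - Y j b * Y k a with hμ
  set Mx : ℝ := ‖Y j a‖ + ‖Y j b‖ + ‖Y k a‖ + ‖Y k b‖ with hMx
  have hMx0 : 0 ≤ Mx := by positivity
  have hn : 0 < ‖μ‖ := norm_pos_iff.2 hab
  refine ⟨3 * (1 + 4 * Mx / ‖μ‖) ^ 2, by positivity, ?_⟩
  intro X hX R hR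
  set D : ℝ := 2 * Mx * R / ‖μ‖ with hD
  have hD0 : 0 ≤ D := by positivity
  set s := (bx X).filter (fun q => ‖yy Y j q‖ ≤ R ∧ ‖yy Y k q‖ ≤ R) with hs
  have hmem : ∀ q ∈ s, ‖yy Y j q‖ ≤ R ∧ ‖yy Y k q‖ ≤ R := by
    intro q hq
    rw [hs, mem_filter] at hq
    exact hq.2
  have hmaps : ∀ q ∈ s, (fun q : Fin 3 → ℤ => q e) q ∈ Finset.Icc (-(X : ℤ)) X := by
    intro q hq
    rw [hs, mem_filter] at hq
    have h1 := hq.1
    unfold bx at h1
    rw [Fintype.mem_piFinset] at h1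
    exact h1 e
  have hfib : ∀ v ∈ Finset.Icc (-(X : ℤ)) (X : ℤ),
      (s.filter (fun q => (fun q : Fin 3 → ℤ => q e) q = v)).card ≤ (2 * ⌊D⌋₊ + 1) ^ 2 := by
    intro v _
    rcases (s.filter (fun q => (fun q : Fin 3 → ℤ => q e) q = v)).eq_empty_or_nonempty with h0 | h0
    · rw [h0, card_empty]
      exact Nat.zero_le _
    · obtain ⟨q0, hq0⟩ := h0
      rw [mem_filter] at hq0
      have hcard : (Finset.Icc (-((⌊D⌋₊ : ℕ) : ℤ)) ((⌊D⌋₊ : ℕ) : ℤ) ×ˢ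
          Finset.Icc (-((⌊D⌋₊ : ℕ) : ℤ)) ((⌊D⌋₊ : ℕ) : ℤ)).card = (2 * ⌊D⌋₊ + 1) ^ 2 := by
        rw [card_product, Int.card_Icc, sq]
        have e5 : (((⌊D⌋₊ : ℕ) : ℤ) + 1 - -((⌊D⌋₊ : ℕ) : ℤ)).toNat = 2 * ⌊D⌋₊ + 1 := by omega
        rw [e5]
      rw [← hcard]
      refine card_le_card_of_injOn (fun q => (q a - q0 a, q b - q0 b)) ?_ ?_
      · intro q hq
        have hq' := Finset.mem_coe.1 hq
        rw [mem_filter] at hq'
        have hqe : q e = q0 e := hq'.2.trans hq0.2.symm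
        have d1 : ∀ i, ‖yy Y i q‖ ≤ R → ‖yy Y i q0‖ ≤ R →
            ‖Y i a * ((q a - q0 a : ℤ) : ℂ) + Y i b * ((q b - q0 b : ℤ) : ℂ)‖ ≤ 2 * R := by
          intro i hi hi0
          have e6 : Y i a * ((q a - q0 a : ℤ) : ℂ) + Y i b * ((q b - q0 b : ℤ) : ℂ) =
              yy Y i q - yy Y i q0 := by
            unfold yy
            rw [sum_three a b e hne he1 he2, sum_three a b e hne he1 he2, hqe]
            push_cast
            ring
          rw [e6]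
          refine (norm_sub_le _ _).trans ?_
          linarith
        have m1 := hmem q hq'.1
        have m0 := hmem q0 hq0.1
        have hcr := cramer (Y j a) (Y j b) (Y k a) (Y k b) μ hμ hab (q a - q0 a) (q b - q0 b) R Mx
          (d1 j m1.1 m0.1) (d1 k m1.2 m0.2) hMx
        rw [Finset.mem_coe, mem_product]
        exact ⟨abs_le_floor _ _ hcr.1, abs_le_floor _ _ hcr.2⟩
      · intro q hq q' hq' heq
        have hq1 := (mem_filter.1 (Finset.mem_coe.1 hq)).2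
        have hq2 := (mem_filter.1 (Finset.mem_coe.1 hq')).2
        rw [Prod.mk.injEq] at heq
        funext x
        rcases he3 x with rfl | rfl | rfl
        · have := heq.1
          omega
        · have := heq.2
          omega
        · exact hq1.trans hq2.symm
  have hcard := Finset.card_le_mul_card_image_of_maps_to hmaps _ hfib
  have hIcc : (Finset.Icc (-(X : ℤ)) (X : ℤ)).card = 2 * X + 1 := by
    rw [Int.card_Icc]
    omega
  rw [hIcc] at hcard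
  have hcard2 : (s.card : ℝ) ≤ (2 * (⌊D⌋₊ : ℝ) + 1) ^ 2 * (2 * X + 1) := by
    exact_mod_cast hcard
  have hfl : ((⌊D⌋₊ : ℕ) : ℝ) ≤ D := Nat.floor_le hD0
  have hX1 : (1 : ℝ) ≤ X := by exact_mod_cast hX
  have h7 : 2 * ((⌊D⌋₊ : ℕ) : ℝ) + 1 ≤ (1 + 4 * Mx / ‖μ‖) * (1 + R) := by
    have h8 : 2 * D = 4 * Mx / ‖μ‖ * R := by
      rw [hD]
      ring
    have h9 : 0 ≤ 4 * Mx / ‖μ‖ := by positivity
    nlinarith
  have h10 : (2 * ((⌊D⌋₊ : ℕ) : ℝ) + 1) ^ 2 ≤ ((1 + 4 * Mx / ‖μ‖) * (1 + R)) ^ 2 :=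
    pow_le_pow_left₀ (by positivity) h7 2
  calc (s.card : ℝ) ≤ (2 * (⌊D⌋₊ : ℝ) + 1) ^ 2 * (2 * X + 1) := hcard2
    _ ≤ ((1 + 4 * Mx / ‖μ‖) * (1 + R)) ^ 2 * (3 * X) :=
        mul_le_mul h10 (by linarith) (by positivity) (by positivity)
    _ = 3 * (1 + 4 * Mx / ‖μ‖) ^ 2 * X * (1 + R) ^ 2 := by ring

theorem tele (n M : ℕ) (hn : 1 ≤ n) (hM : n ≤ M) :
    (1 : ℝ) / n = ∑ m ∈ Finset.Ico n M, 1 / ((m : ℝ) * (m + 1)) + 1 / M := by
  induction M, hM using Nat.le_induction with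
  | base => simp
  | succ M hM ih =>
    have hM0 : (0 : ℝ) < M := by
      have : 0 < M := by omega
      exact_mod_cast this
    rw [ih, Finset.sum_Ico_succ_top hM]
    push_cast
    field_simp
    ring

theorem card_bx (X : ℕ) : (bx X).card = (2 * X + 1) ^ 3 := by
  unfold bx
  rw [Fintype.card_piFinset]
  simp only [Int.card_Icc, Finset.prod_const, Finset.card_univ, Fintype.card_fin]
  congr 1
  omega

open Classical in
theorem ivb : S_IVB := by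
  intro c Y hc hY N hN
  obtain ⟨C1, hC1, hA⟩ := lemA Y hY
  have hne1 : ∀ i : Fin 3, i + 1 ≠ i + 2 := by decide
  have hne2 : ∀ i : Fin 3, i ≠ i + 1 := by decide
  have hne3 : ∀ i : Fin 3, i ≠ i + 2 := by decide
  choose C2 hC2 hC using fun i : Fin 3 => lemC Y hY (i + 1) (i + 2) (hne1 i)
  set CC : ℝ := ∑ i, C2 i with hCC
  have hCC0 : 0 < CC := Finset.sum_pos (fun i _ => hC2 i) ⟨0, mem_univ 0⟩
  set C4 : ℝ := 2 * CC * (1 + (2 * C1 / c) ^ 2) with hC4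
  have hC40 : 0 < C4 := by positivity
  have hN0 : ∀ q, 0 ≤ N q := by
    intro q
    have h := hN q 0 1 (by decide)
    have h2 : (0 : ℝ) ≤ (N q : ℝ) := le_trans (by positivity) h
    exact_mod_cast h2
  refine ⟨2 * C4 + 27, by positivity, ?_⟩
  intro X hX
  have hX1 : (1 : ℝ) ≤ X := by exact_mod_cast hX
  have hX0 : (0 : ℝ) < X := by linarith
  set A := (bx X).filter (fun q => (X : ℤ) ≤ 2 * nm q ∧ N q ≠ 0) with hAd
  -- level sets
  have hlev : ∀ T : ℝ, 0 ≤ T → ((A.filter (fun q => (N q : ℝ) ≤ T)).card : ℝ) ≤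
      C4 * X * (1 + T ^ 2 / X ^ 2) := by
    intro T hT
    set R : ℝ := 2 * C1 * T / (c * X) with hR
    have hR0 : 0 ≤ R := by positivity
    have hsub : A.filter (fun q => (N q : ℝ) ≤ T) ⊆ (univ : Finset (Fin 3)).biUnion (fun i =>
        (bx X).filter (fun q => ‖yy Y (i + 1) q‖ ≤ R ∧ ‖yy Y (i + 2) q‖ ≤ R)) := by
      intro q hq
      rw [mem_filter, hAd, mem_filter] at hq
      obtain ⟨⟨hq1, hq2, hq3⟩, hq4⟩ := hq
      obtain ⟨i, hi⟩ := hA q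
      rw [mem_biUnion]
      refine ⟨i, mem_univ i, ?_⟩
      rw [mem_filter]
      have hyi : (X : ℝ) ≤ 2 * C1 * ‖yy Y i q‖ := by
        have h5 : (X : ℝ) ≤ 2 * (nm q : ℝ) := by exact_mod_cast hq2
        linarith
      have hj : ∀ j, i ≠ j → ‖yy Y j q‖ ≤ R := by
        intro j hij
        have h6 : c * (‖yy Y i q‖ * ‖yy Y j q‖) ≤ T := (hN q i j hij).trans hq4
        rw [hR, le_div_iff₀ (by positivity)]
        have h7 : ‖yy Y j q‖ * (c * X) ≤ ‖yy Y j q‖ * (c * (2 * C1 * ‖yy Y i q‖)) :=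
          mul_le_mul_of_nonneg_left (mul_le_mul_of_nonneg_left hyi hc.le) (norm_nonneg _)
        have h8 : ‖yy Y j q‖ * (c * (2 * C1 * ‖yy Y i q‖)) =
            2 * C1 * (c * (‖yy Y i q‖ * ‖yy Y j q‖)) := by ring
        have h9 : 2 * C1 * (c * (‖yy Y i q‖ * ‖yy Y j q‖)) ≤ 2 * C1 * T :=
          mul_le_mul_of_nonneg_left h6 (by positivity)
        linarith
      exact ⟨hq1, hj _ (hne2 i), hj _ (hne3 i)⟩
    have h1 := (Finset.card_le_card hsub).trans Finset.card_biUnion_le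
    have h2 : ((A.filter (fun q => (N q : ℝ) ≤ T)).card : ℝ) ≤ ∑ i : Fin 3,
        (((bx X).filter (fun q => ‖yy Y (i + 1) q‖ ≤ R ∧ ‖yy Y (i + 2) q‖ ≤ R)).card : ℝ) := by
      exact_mod_cast h1
    have h3 : ∑ i : Fin 3,
        (((bx X).filter (fun q => ‖yy Y (i + 1) q‖ ≤ R ∧ ‖yy Y (i + 2) q‖ ≤ R)).card : ℝ) ≤
        ∑ i : Fin 3, C2 i * X * (1 + R) ^ 2 := sum_le_sum (fun i _ => hC i X hX R hR0)
    have h4 : ∑ i : Fin 3, C2 i * X * (1 + R) ^ 2 = CC * X * (1 + R) ^ 2 := by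
      rw [hCC, sum_mul, sum_mul]
    have h5 : (1 + R) ^ 2 ≤ 2 * (1 + R ^ 2) := by nlinarith [sq_nonneg (R - 1)]
    have h6 : R ^ 2 = (2 * C1 / c) ^ 2 * (T ^ 2 / X ^ 2) := by
      rw [hR]
      field_simp
    have h7 : 1 + R ^ 2 ≤ (1 + (2 * C1 / c) ^ 2) * (1 + T ^ 2 / X ^ 2) := by
      rw [h6]
      have h8 : 0 ≤ (2 * C1 / c) ^ 2 := sq_nonneg _
      have h9 : 0 ≤ T ^ 2 / (X : ℝ) ^ 2 := by positivity
      nlinarith
    calc ((A.filter (fun q => (N q : ℝ) ≤ T)).card : ℝ) ≤ CC * X * (1 + R) ^ 2 := by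
          linarith
      _ ≤ CC * X * (2 * ((1 + (2 * C1 / c) ^ 2) * (1 + T ^ 2 / X ^ 2))) :=
          mul_le_mul_of_nonneg_left (by linarith) (by positivity)
      _ = C4 * X * (1 + T ^ 2 / X ^ 2) := by
          rw [hC4]
          ring
  set M : ℕ := X ^ 2 with hM
  have hMr : (M : ℝ) = (X : ℝ) ^ 2 := by
    rw [hM]
    push_cast
    ring
  have hM1 : 1 ≤ M := by
    rw [hM]
    exact Nat.one_le_pow _ _ (by omega)
  have hM0 : (0 : ℝ) < M := by exact_mod_cast hM1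
  have hpt : ∀ q ∈ A, 1 / (N q : ℝ) ≤ ∑ m ∈ Finset.Ico 1 M,
      (if (N q : ℝ) ≤ m then 1 / ((m : ℝ) * (m + 1)) else 0) + 1 / M := by
    intro q hq
    rw [hAd, mem_filter] at hq
    obtain ⟨n, hn⟩ : ∃ n : ℕ, N q = n := ⟨(N q).toNat, by have := hN0 q; omega⟩
    have hn1 : 1 ≤ n := by
      have h1 := hq.2.2
      omega
    have hnr : (N q : ℝ) = (n : ℝ) := by
      rw [hn]
      simp
    rw [hnr]
    by_cases hnM : n ≤ M
    · rw [tele n M hn1 hnM]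
      refine add_le_add_left ?_ _
      rw [← Finset.sum_filter]
      refine Finset.sum_le_sum_of_subset_of_nonneg ?_ ?_
      · intro m hm
        rw [Finset.mem_Ico] at hm
        rw [mem_filter, Finset.mem_Ico]
        refine ⟨by omega, ?_⟩
        exact_mod_cast hm.1
      · intro m _ _
        positivity
    · rw [not_le] at hnM
      have h1 : (1 : ℝ) / n ≤ 1 / M := by
        apply one_div_le_one_div_of_le hM0
        exact_mod_cast hnM.le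
      have h2 : 0 ≤ ∑ m ∈ Finset.Ico 1 M,
          (if (n : ℝ) ≤ m then 1 / ((m : ℝ) * (m + 1)) else 0) := by
        refine sum_nonneg (fun m _ => ?_)
        split_ifs
        · positivity
        · exact le_rfl
      linarith
  have hcardA : (A.card : ℝ) ≤ 27 * (X : ℝ) ^ 3 := by
    have h1 : A.card ≤ (2 * X + 1) ^ 3 := by
      rw [← card_bx]
      exact card_le_card (filter_subset _ _)
    have h2 : (A.card : ℝ) ≤ (2 * (X : ℝ) + 1) ^ 3 := by exact_mod_cast h1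
    have h3 : (2 * (X : ℝ) + 1) ^ 3 ≤ (3 * X) ^ 3 :=
      pow_le_pow_left₀ (by positivity) (by linarith) 3
    calc (A.card : ℝ) ≤ (2 * (X : ℝ) + 1) ^ 3 := h2
      _ ≤ (3 * X) ^ 3 := h3
      _ = 27 * (X : ℝ) ^ 3 := by ring
  have hsum : ∑ q ∈ A, (1 / (N q : ℝ)) ≤ ∑ m ∈ Finset.Ico 1 M,
      ((A.filter (fun q => (N q : ℝ) ≤ m)).card : ℝ) * (1 / ((m : ℝ) * (m + 1))) +
        (A.card : ℝ) * (1 / M) := by
    refine (sum_le_sum hpt).trans (le_of_eq ?_)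
    rw [sum_add_distrib, sum_const, nsmul_eq_mul, sum_comm]
    congr 1
    refine sum_congr rfl (fun m _ => ?_)
    rw [← sum_filter, sum_const, nsmul_eq_mul]
  have hterm : ∀ m ∈ Finset.Ico 1 M,
      ((A.filter (fun q => (N q : ℝ) ≤ m)).card : ℝ) * (1 / ((m : ℝ) * (m + 1))) ≤
        C4 * X * (1 / ((m : ℝ) * (m + 1)) + 1 / M) := by
    intro m hm
    rw [Finset.mem_Ico] at hm
    have hm0 : (0 : ℝ) < m := by exact_mod_cast hm.1
    have h1 := hlev m hm0.le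
    have h2 : 0 ≤ 1 / ((m : ℝ) * (m + 1)) := by positivity
    refine (mul_le_mul_of_nonneg_right h1 h2).trans ?_
    rw [mul_assoc (C4 * X)]
    refine mul_le_mul_of_nonneg_left ?_ (by positivity)
    rw [add_mul, one_mul, hMr]
    refine add_le_add_right ?_ _
    rw [div_mul_div_comm, mul_one, div_le_div_iff₀ (by positivity) (by positivity)]
    nlinarith [pow_pos hX0 2, mul_pos (pow_pos hX0 2) hm0]
  have hS1 : ∑ m ∈ Finset.Ico 1 M, 1 / ((m : ℝ) * (m + 1)) ≤ 1 := by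
    have h1 := tele 1 M le_rfl hM1
    have h2 : (0 : ℝ) < 1 / M := by positivity
    simp only [Nat.cast_one, div_one] at h1
    linarith
  have hS2 : ∑ m ∈ Finset.Ico 1 M, (1 : ℝ) / M ≤ 1 := by
    rw [sum_const, nsmul_eq_mul, Nat.card_Ico, mul_one_div, div_le_one hM0]
    exact_mod_cast Nat.sub_le M 1
  have hfin1 : ∑ m ∈ Finset.Ico 1 M,
      ((A.filter (fun q => (N q : ℝ) ≤ m)).card : ℝ) * (1 / ((m : ℝ) * (m + 1))) ≤
        C4 * X * 2 := by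
    refine (sum_le_sum hterm).trans ?_
    rw [← mul_sum, sum_add_distrib]
    exact mul_le_mul_of_nonneg_left (by linarith) (by positivity)
  have hfin2 : (A.card : ℝ) * (1 / M) ≤ 27 * X := by
    rw [mul_one_div, div_le_iff₀ hM0, hMr]
    refine hcardA.trans (le_of_eq ?_)
    ring
  have hgoal : ∑ q ∈ A, (1 / (N q : ℝ)) ≤ (2 * C4 + 27) * X := by
    have : (2 * C4 + 27) * (X : ℝ) = C4 * X * 2 + 27 * X := by ring
    linarith
  exact hgoal

end Pool.Agent.W899.QP
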